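import Mathlib

set_option autoImplicit false

namespace Pool.Agent.Results.MP_31d4f2_co.Counter

/-- positions: `term true` is `*L`, `term false` is `*R`, `node n f` has the `n + 1` options `f i` -/
inductive Pos
  | term (b : Bool)
  | node (n : ℕ) (f : Fin (n + 1) → Pos)

open Pos

/-- sum of a terminal position and a position -/
def addT (a : Bool) : Pos → Pos
  | term b => term (a == b)
  | node m g => node m fun j => addT a (g j)

/-- sum of a non-terminal position `G` and a position, given the maps `r i = (G_i + ·)` -/
def addN {n : ℕ} (r : Fin (n + 1) → Pos → Pos) : Pos → Pos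
  | term b => node n fun i => r i (term b)
  | node m g => node (n + 1 + m) 
      (Fin.append (m := n + 1) (n := m + 1) (fun i => r i (node m g)) fun j => addN r (g j))

/-- disjunctive sum -/
def add : Pos → Pos → Pos
  | term a => addT a
  | node _ f => addN fun i => add (f i)

/-- `win G p`: Left wins `G` when Left (`p = true`) or Right (`p = false`) moves first -/
def win : Pos → Bool → Bool
  | term b, _ => b
  | node _ f, true => decide (∃ i, win (f i) false)
  | node _ f, false => decide (∀ i, win (f i) true)

def Equiv (G H : Pos) : Prop := ∀ X p, win (add G X) p = win (add H X) p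

def Iso : Pos → Pos → Prop
  | term a, term b => a = b
  | node _ f, node _ g => (∀ i, ∃ j, Iso (f i) (g j)) ∧ ∀ j, ∃ i, Iso (f i) (g j)
  | _, _ => False

/-- the position `{G}` -/
def one (G : Pos) : Pos := node 0 fun _ => G

/-- `G` has an option equivalent to `H` -/
def HasOpt (G H : Pos) : Prop := ∃ n f i, G = node n f ∧ Equiv (f i) H

inductive Step : Pos → Pos → Prop
  | s1 (n f i b) : Equiv (f i) (one (term b)) → (∀ j, HasOpt (f j) (term b)) → Step (node n f) (term b)
  | s2 (n f i) : 1 ≤ n → (∀ j ≠ i, HasOpt (f j) (one (f i))) → Step (node n f) (one (f i))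
  | sub (n f i H) : Step (f i) H → Step (node n f) (node n (Function.update f i H))

def Reduced (G : Pos) : Prop := ∀ H, ¬ Step G H

/-- `{*L, {*L}}` -/
def A : Pos := node 1 ![term true, one (term true)]

lemma all (n f m g) (P : Pos → Prop) : (∀ k, P (Fin.append (m := n + 1) (n := m + 1)
    (fun i => add (f i) (node m g)) (fun j => add (node n f) (g j)) k)) ↔
    (∀ i, P (add (f i) (node m g))) ∧ ∀ j, P (add (node n f) (g j)) := by
  simp only [Fin.forall_fin_add, Fin.append_left, Fin.append_right]

lemma winF (n f m g) : win (add (node n f) (node m g)) false ↔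
    (∀ i, win (add (f i) (node m g)) true) ∧ ∀ j, win (add (node n f) (g j)) true :=
  decide_eq_true_iff.trans (all n f m g (win · true))

lemma winT (n f m g) : win (add (node n f) (node m g)) true ↔
    (∃ i, win (add (f i) (node m g)) false) ∨ ∃ j, win (add (node n f) (g j)) false :=
  decide_eq_true_iff.trans (not_iff_not.1 (by
    simp only [not_exists, not_or]; exact all n f m g (¬ win · false)))

lemma key : Equiv (term true) (one A) := fun X p => by
  induction X generalizing p with
  | term b => cases b <;> cases p <;> decide
  | node m g ih =>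
    refine Bool.eq_iff_iff.2 ?_
    cases p
    · have e : win (add (term true) (node m g)) false ↔ ∀ j, win (add (one A) (g j)) true :=
        decide_eq_true_iff.trans (forall_congr' fun j => by rw [← ih]; rfl)
      exact ⟨fun h => (winF ..).2 ⟨fun _ => (winT ..).2 (Or.inl ⟨0, h⟩), e.1 h⟩,
        fun h => e.2 ((winF ..).1 h).2⟩
    · have e : win (add (term true) (node m g)) true ↔ ∃ j, win (add (one A) (g j)) false :=
        decide_eq_true_iff.trans (exists_congr fun j => by rw [← ih]; rfl)
      exact ⟨fun h => (winT ..).2 (Or.inr (e.1 h)), fun h => ((winT ..).1 h).elim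
        (fun ⟨_, h⟩ => ((winF ..).1 h).1 0) e.2⟩

lemma noOpt (b H) : ¬ HasOpt (term b) H := fun ⟨_, _, _, h, _⟩ => nomatch h

lemma redT (b) : Reduced (term b) := fun _ h => nomatch h

lemma red1 : Reduced (one (term true)) := fun _ h => by
  cases h with
  | s1 _ _ i b h1 h2 => exact noOpt _ _ (h2 0)
  | s2 _ _ i h1 h2 => omega
  | sub _ _ i H h => exact redT _ _ h

/-- `{{{*L, *R}}}`, which separates `{*L}` from `*L` and from `A` -/
def X : Pos := one (one (node 1 ![term true, term false]))

lemma redA : Reduced A := fun _ h => by
  cases h with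
  | s1 _ _ i b h1 h2 => exact noOpt _ _ (h2 0)
  | s2 _ _ i h1 h2 =>
    fin_cases i
    · obtain ⟨_, _, j, h, h3⟩ := h2 1 (by decide)
      cases h
      exact absurd (show win (add (term true) X) true = win (add (one (term true)) X) true from h3 X true)
        (by decide)
    · exact noOpt _ _ (h2 0 (by decide))
  | sub _ _ i H h =>
    fin_cases i
    exacts [redT _ _ h, red1 _ h]

theorem result : ∃ G H K : Pos, Relation.ReflTransGen Step G H ∧ Relation.ReflTransGen Step G K ∧
    Reduced H ∧ Reduced K ∧ ¬ Iso H K := by
  refine ⟨node 1 ![A, one (term true)], term true, one A, .single (.s1 _ _ 1 _ (fun _ _ => rfl) fun j => ?_),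
    .single (.s2 _ _ 0 le_rfl fun j hj => ?_), redT _, fun _ h => ?_, id⟩
  · fin_cases j
    exacts [⟨_, _, 0, rfl, fun _ _ => rfl⟩, ⟨_, _, 0, rfl, fun _ _ => rfl⟩]
  · fin_cases j
    exacts [(hj rfl).elim, ⟨_, _, 0, rfl, key⟩]
  · cases h with
    | s1 _ _ i b h1 h2 =>
      cases b
      · exact absurd (show win (add A (term true)) true = _ from h1 (term true) true) (by decide)
      · exact absurd (show win (add A X) true = _ from h1 X true) (by decide)
    | s2 _ _ i h1 h2 => omega
    | sub _ _ i H h => exact redA _ h

end Pool.Agent.Results.MP_31d4f2_co.Counter
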